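import Pool.Agent.Helper2.LD.St5

set_option autoImplicit false

namespace Pool.Agent.Helper20.LD

open Pool.Agent.Helper2.LD

section

variable {V Q Λ B FB W : Type} [Fintype Λ] [Fintype B] [Fintype FB]

private lemma two_common {X : Type} (G : SimpleGraph X) {x y z : X} (h1 : G.Adj z x)
    (h2 : G.Adj z y) : G.edist x y ≤ 2 := by
  have h := SimpleGraph.edist_triangle (G := G) (u := x) (v := z) (w := y)
  have h3 : G.edist x z = 1 := SimpleGraph.edist_eq_one_iff_adj.2 h1.symm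
  have h4 : G.edist z y = 1 := SimpleGraph.edist_eq_one_iff_adj.2 h2
  rw [h3, h4] at h
  have : (1 : ℕ∞) + 1 = 2 := by norm_num
  rwa [this] at h

private lemma rig (hR : StRig) (hI : StTinj) (hTd : StTdist) (hTt : StTtree) (N e : ℕ)
    (c : Core V Q Λ B FB) (s : Ch V Q) (M : SimpleGraph W) (lm : W → Finset (Kd N Λ B FB))
    (cx : Cx N e c s M lm) :
    (∀ x, (∃ υ : TV N e c s, (∃ b u h, υ.1 = .cap b u h) ∧
        (TG N e c s).edist υ x ≤ ((2 * N : ℕ) : ℕ∞)) →
      ∃! g, DR N e (TG N e c s) (tL N e c s) M lm x g) ∧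
    (∀ x x' g, (∃ υ : TV N e c s, (∃ b u h, υ.1 = .cap b u h) ∧
        (TG N e c s).edist υ x ≤ ((2 * N : ℕ) : ℕ∞)) →
      DR N e (TG N e c s) (tL N e c s) M lm x g →
      DR N e (TG N e c s) (tL N e c s) M lm x' g → x = x') ∧
    (∀ x g, (∃ υ : TV N e c s, (∃ b u h, υ.1 = .cap b u h) ∧
        (TG N e c s).edist υ x ≤ ((2 * N - 1 : ℕ) : ℕ∞)) →
      DR N e (TG N e c s) (tL N e c s) M lm x g →
      (∀ y, (TG N e c s).Adj x y → ∃ g', DR N e (TG N e c s) (tL N e c s) M lm y g' ∧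
        M.Adj g g') ∧
      ∀ g', M.Adj g g' → ∃ y, (TG N e c s).Adj x y ∧
        DR N e (TG N e c s) (tL N e c s) M lm y g') := by
  have hpar := cx.par
  have hne : ∀ {x y z : TV N e c s}, (TG N e c s).Adj z x → (TG N e c s).Adj z y →
      tL N e c s x = tL N e c s y → x = y := by
    intro x y z h1 h2 h3
    by_contra h4
    exact hI.inj N e c s cx.par cx.ax cx.ch x y h4 (two_common _ h1 h2) h3
  have key := hR N e (TG N e c s) (tL N e c s) M lm
    {υ : TV N e c s | ∃ b u h, υ.1 = .cap b u h}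
    (by have := hpar.1; have := hpar.2; omega)
    (hTt N e c s cx.par cx.ax cx.ch).isAcyclic
    (fun x y h1 h2 => hI.inj N e c s cx.par cx.ax cx.ch x y h1 h2)
    (by
      rintro υ ⟨b, u, h, hυ⟩ x hx
      refine (hI.cap N e c s cx.par cx.ax cx.ch υ x hx.symm ?_).symm
      intro b' u' h' h''
      rw [hυ] at h''
      exact absurd h'' (by simp))
    (by
      rintro υ ⟨b, u, h, hυ⟩ x y x' y' hx hxy hy' hxy' h1 h2
      have hυpc : pc υ.1 = some (b, u) := by rw [hυ]; rfl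
      have hy2 : (TG N e c s).edist υ y' ≤ ((2 * N : ℕ) : ℕ∞) :=
        hy'.trans (by exact_mod_cast (by omega : 2 * N - 1 ≤ 2 * N))
      rcases hTd.near N e c s cx.par cx.ax cx.ch υ x b u hυpc hx with hxp | ⟨j, hxp⟩
      · rcases hTd.near N e c s cx.par cx.ax cx.ch υ y' b u hυpc hy2 with hyp | ⟨j, hyp⟩
        · exact hI.edge N e c s cx.par cx.ax cx.ch x y x' y' hxy hxy' (by rw [hxp, hyp])
            (by rw [hxp]; simp) h1 h2
        · have h3 : y' = y := hI.cap N e c s cx.par cx.ax cx.ch y' y h2.symm (by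
            intro b' u' h' h''
            rw [hyp] at h''
            exact absurd h'' (by simp))
          subst h3
          exact ⟨hne hxy.symm hxy'.symm h1, rfl⟩
      · have h3 : x = x' := hI.cap N e c s cx.par cx.ax cx.ch x x' h1 (by
          intro b' u' h' h''
          rw [hxp] at h''
          exact absurd h'' (by simp))
        subst h3
        exact ⟨rfl, hne hxy hxy' h2⟩)
    cx.deq
  exact key

end

theorem pRg (hR : StRig) (hI : StTinj) (hTd : StTdist) (hTt : StTtree) : StRg where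
  uniq := by
    intro V Q Λ B FB W _ _ _ N e c s M lm cx t ht
    obtain ⟨x, υ, hx, hυ, hd⟩ := ht
    subst hx
    obtain ⟨g, hg, hg2⟩ := (rig hR hI hTd hTt N e c s M lm cx).1 x ⟨υ, hυ, hd⟩
    refine ⟨g, ⟨x.2, hg⟩, ?_⟩
    rintro g' ⟨_, hg'⟩
    exact hg2 g' hg'
  uniq' := by
    intro V Q Λ B FB W _ _ _ N e c s M lm cx t t' g ht hg hg'
    obtain ⟨x, υ, hx, hυ, hd⟩ := ht
    subst hx
    obtain ⟨_, h1⟩ := hg
    obtain ⟨h0, h2⟩ := hg'
    have h3 := (rig hR hI hTd hTt N e c s M lm cx).2.1 x ⟨t', h0⟩ g ⟨υ, hυ, hd⟩ h1 h2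
    rw [h3]
  nbr := by
    intro V Q Λ B FB W _ _ _ N e c s M lm cx t g ht hg
    obtain ⟨x, υ, hx, hυ, hd⟩ := ht
    subst hx
    obtain ⟨_, h1⟩ := hg
    have h2 := (rig hR hI hTd hTt N e c s M lm cx).2.2 x g ⟨υ, hυ, hd⟩ h1
    refine ⟨?_, ?_⟩
    · intro x' y hx' hy
      have h3 : x' = x := Subtype.ext hx'
      subst h3
      obtain ⟨g', hg', ha⟩ := h2.1 y hy
      exact ⟨g', ⟨y.2, hg'⟩, ha⟩
    · intro g' hg'
      obtain ⟨y, hy, hy2⟩ := h2.2 g' hg'
      exact ⟨x, y, rfl, hy, ⟨y.2, hy2⟩⟩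

end Pool.Agent.Helper20.LD
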