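import Pool.Agent.Helper2.LD.St5

set_option autoImplicit false

namespace Pool.Agent.Helper20.LD

open Pool.Agent.Helper2.LD

section

variable {K X W : Type}

/-- distances up to `2 * N` transfer -/
private lemma pe_le {N e : ℕ} {S : SimpleGraph X} {lab : X → Finset K} {S' : SimpleGraph W}
    {lab' : W → Finset K} {s t : X} {s' t' : W} (h : PairEq N e S lab S' lab' s t s' t')
    (d : ℕ) (hd : d ≤ 2 * N) : S.edist s t = (d : ℕ∞) ↔ S'.edist s' t' = (d : ℕ∞) :=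
  h.2.2.1 d hd

private lemma adj_iff_one (G : SimpleGraph X) (x y : X) : G.Adj x y ↔ G.edist x y = ((1 : ℕ) : ℕ∞) := by
  rw [Nat.cast_one, SimpleGraph.edist_eq_one_iff_adj]

private lemma two_of_common (G : SimpleGraph X) {x y z : X} (h1 : G.Adj z x) (h2 : G.Adj z y) :
    G.edist x y ≤ 2 := by
  have h := SimpleGraph.edist_triangle (G := G) (u := x) (v := z) (w := y)
  have h3 : G.edist x z = 1 := SimpleGraph.edist_eq_one_iff_adj.2 h1.symm
  have h4 : G.edist z y = 1 := SimpleGraph.edist_eq_one_iff_adj.2 h2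
  rw [h3, h4] at h
  have : (1 : ℕ∞) + 1 = 2 := by norm_num
  rwa [this] at h

private lemma le_nat {a : ℕ∞} {n : ℕ} (h : a ≤ (n : ℕ∞)) : ∃ d : ℕ, d ≤ n ∧ a = (d : ℕ∞) := by
  have h1 : a ≠ ⊤ := fun h2 => by rw [h2] at h; exact absurd h (by simp)
  obtain ⟨d, hd⟩ := ENat.ne_top_iff_exists.1 h1
  refine ⟨d, ?_, hd.symm⟩
  rw [← hd] at h
  exact_mod_cast h

private lemma minj {N e : ℕ} (hN : 1 ≤ N) {T : SimpleGraph X} {tl : X → Finset K}
    {M : SimpleGraph W} {lm : W → Finset K}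
    (hinj : ∀ x y, x ≠ y → T.edist x y ≤ 2 → tl x ≠ tl y) (hD : DEq N e T tl M lm)
    {g g' : W} (hne : g ≠ g') (hd : M.edist g g' ≤ 2) : lm g ≠ lm g' := by
  obtain ⟨x, hx⟩ := hD.2 g
  obtain ⟨t, ht⟩ := hx.2.2 g'
  have h1 : x ≠ t := fun h => hne (ht.2.1.1 h)
  have hd' : M.edist g g' ≤ ((2 : ℕ) : ℕ∞) := by exact_mod_cast hd
  obtain ⟨d, hd1, hd2⟩ := le_nat hd'
  have h2 : T.edist x t = (d : ℕ∞) := (pe_le ht d (by omega)).2 hd2
  have h3 : T.edist x t ≤ 2 := by rw [h2]; exact_mod_cast hd1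
  have h4 := hinj x t h1 h3
  rw [← hx.1, ← ht.1]
  exact h4

private lemma acyc {T : SimpleGraph X} (hT : T.IsAcyclic) {υ x y y' : X} {d : ℕ}
    (hx : T.edist υ x = ((d + 1 : ℕ) : ℕ∞)) (hy : T.edist υ y = (d : ℕ∞))
    (hy' : T.edist υ y' = (d : ℕ∞)) (a : T.Adj x y) (a' : T.Adj x y') : y = y' := by
  classical
  have key : ∀ y, T.edist υ y = (d : ℕ∞) → ∀ a : T.Adj x y,
      ∃ q : T.Walk y υ, (SimpleGraph.Walk.cons a q).IsPath := by
    intro y hy a
    rw [SimpleGraph.edist_comm] at hy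
    obtain ⟨q, hq⟩ := SimpleGraph.exists_walk_of_edist_eq_coe hy
    refine ⟨q, ?_⟩
    rw [SimpleGraph.Walk.cons_isPath_iff]
    constructor
    · apply SimpleGraph.Walk.isPath_of_length_eq_dist
      rw [hq, SimpleGraph.dist, hy]
      rfl
    · intro hmem
      have h1 : T.edist x υ ≤ ((q.dropUntil x hmem).length : ℕ∞) :=
        SimpleGraph.edist_le _
      have h2 : (q.dropUntil x hmem).length ≤ q.length := SimpleGraph.Walk.length_dropUntil_le_length q hmem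
      rw [SimpleGraph.edist_comm, hx] at h1
      have h3 : d + 1 ≤ (q.dropUntil x hmem).length := by exact_mod_cast h1
      omega
  obtain ⟨q, hq⟩ := key y hy a
  obtain ⟨q', hq'⟩ := key y' hy' a'
  have h := (hT.subsingleton_path x υ).elim ⟨_, hq⟩ ⟨_, hq'⟩
  have h2 : SimpleGraph.Walk.cons a q = SimpleGraph.Walk.cons a' q' := congrArg Subtype.val h
  have h3 := congrArg SimpleGraph.Walk.snd h2
  simpa using h3

end

theorem pRig : StRig := by
  intro K X W N e T tl M lm C hN hT hinj hC hedge hD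
  -- copies of the hubs of `C`
  have hcap : ∀ υ ∈ C, ∃ vM, DR N e T tl M lm υ vM ∧ ∀ g, lm g = tl υ → g = vM := by
    intro υ hυ
    obtain ⟨vM, hv⟩ := hD.1 υ
    refine ⟨vM, hv, ?_⟩
    intro g hg
    obtain ⟨t, ht⟩ := hv.2.2 g
    have h1 : tl t = tl υ := by rw [ht.1, hg]
    have h2 : t = υ := hC υ hυ t h1
    exact (ht.2.1.1 h2.symm).symm
  have hdist : ∀ υ ∈ C, ∀ vM, (∀ g, lm g = tl υ → g = vM) → ∀ x g, DR N e T tl M lm x g →
      ∀ d : ℕ, d ≤ 2 * N → (T.edist υ x = (d : ℕ∞) ↔ M.edist vM g = (d : ℕ∞)) := by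
    intro υ hυ vM hv x g hxg d hd
    obtain ⟨g', hg'⟩ := hxg.2.1 υ
    have h1 : g' = vM := hv g' hg'.1.symm
    subst h1
    have h2 := pe_le hg' d hd
    rw [SimpleGraph.edist_comm (u := υ), SimpleGraph.edist_comm (u := g')]
    exact h2
  have hstep : ∀ υ ∈ C, ∀ x g g' h', DR N e T tl M lm x g →
      T.edist υ x ≤ ((2 * N - 1 : ℕ) : ℕ∞) → M.Adj g g' → DR N e T tl M lm h' g' →
      T.Adj x h' := by
    intro υ hυ x g g' h' hxg hυx hgg' hh'
    obtain ⟨vM, hv, hvu⟩ := hcap υ hυ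
    obtain ⟨t, ht⟩ := hh'.2.2 g
    obtain ⟨t2, ht2⟩ := hxg.2.2 g'
    have a1 : T.Adj h' t := by
      rw [adj_iff_one, pe_le ht 1 (by omega), ← adj_iff_one]
      exact hgg'.symm
    have a2 : T.Adj x t2 := by
      rw [adj_iff_one, pe_le ht2 1 (by omega), ← adj_iff_one]
      exact hgg'
    obtain ⟨d, hd, hd2⟩ := le_nat hυx
    have h3 : M.edist vM g = (d : ℕ∞) := (hdist υ hυ vM hvu x g hxg d (by omega)).1 hd2
    have h4 : M.edist vM g' ≤ ((2 * N : ℕ) : ℕ∞) := by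
      have h5 := SimpleGraph.edist_triangle (G := M) (u := vM) (v := g) (w := g')
      rw [h3, (adj_iff_one M g g').1 hgg'] at h5
      refine h5.trans ?_
      have : (d : ℕ∞) + ((1 : ℕ) : ℕ∞) = ((d + 1 : ℕ) : ℕ∞) := by push_cast; rfl
      rw [this]
      exact_mod_cast (by omega : d + 1 ≤ 2 * N)
    obtain ⟨d', hd', hd2'⟩ := le_nat h4
    have h6 : T.edist υ h' ≤ ((2 * N : ℕ) : ℕ∞) := by
      rw [(hdist υ hυ vM hvu h' g' hh' d' (by omega)).2 hd2']
      exact_mod_cast hd'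
    have h7 := hedge υ hυ h' t t2 x h6 a1 hυx a2.symm (by rw [ht2.1, hh'.1]) (by rw [ht.1, hxg.1])
    rw [h7.1]
    exact a2
  have hne : ∀ {x y z : X}, T.Adj z x → T.Adj z y → tl x = tl y → x = y := by
    intro x y z h1 h2 h3
    by_contra h4
    exact hinj x y h4 (two_of_common T h1 h2) h3
  have hneM : ∀ {x y z : W}, M.Adj z x → M.Adj z y → lm x = lm y → x = y := by
    intro x y z h1 h2 h3
    by_contra h4
    exact minj hN hinj hD h4 (two_of_common M h1 h2) h3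
  -- a neighbour nearer to `vM`
  have hnear : ∀ (vM g : W) (d : ℕ), M.edist vM g = ((d + 1 : ℕ) : ℕ∞) →
      ∃ g1, M.Adj g1 g ∧ M.edist vM g1 = (d : ℕ∞) := by
    intro vM g d hd
    rw [SimpleGraph.edist_comm] at hd
    obtain ⟨p, hp⟩ := SimpleGraph.exists_walk_of_edist_eq_coe hd
    cases p with
    | nil => simp at hp
    | @cons _ v _ a q =>
      rw [SimpleGraph.Walk.length_cons] at hp
      refine ⟨v, a.symm, ?_⟩
      have h1 : M.edist v vM ≤ (d : ℕ∞) := by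
        have := SimpleGraph.edist_le q
        rwa [show q.length = d by omega] at this
      have h2 := SimpleGraph.edist_triangle (G := M) (u := g) (v := v) (w := vM)
      rw [hd, (adj_iff_one M g v).1 a] at h2
      obtain ⟨m, hm, hm2⟩ := le_nat h1
      rw [hm2] at h2
      have h3 : d + 1 ≤ 1 + m := by exact_mod_cast h2
      rw [SimpleGraph.edist_comm, hm2]
      exact_mod_cast (by omega : m = d)
  have hU : ∀ x x' g, (∃ υ ∈ C, T.edist υ x ≤ ((2 * N : ℕ) : ℕ∞)) → DR N e T tl M lm x g →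
      DR N e T tl M lm x' g → x = x' := by
    rintro x x' g ⟨υ, hυ, hυx⟩ hx hx'
    obtain ⟨vM, hv, hvu⟩ := hcap υ hυ
    obtain ⟨d, hd, hd2⟩ := le_nat hυx
    have h1 := (hdist υ hυ vM hvu x g hx d hd).1 hd2
    rcases Nat.eq_zero_or_pos d with h0 | h0
    · subst h0
      have h2 : vM = g := by
        rw [Nat.cast_zero, SimpleGraph.edist_eq_zero_iff] at h1
        exact h1
      subst h2
      have h3 : x = υ := hC υ hυ x (by rw [hx.1, ← hv.1])
      have h4 : x' = υ := hC υ hυ x' (by rw [hx'.1, ← hv.1])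
      rw [h3, h4]
    · obtain ⟨m, rfl⟩ : ∃ m, d = m + 1 := ⟨d - 1, by omega⟩
      obtain ⟨g1, ha, hg1⟩ := hnear vM g m h1
      obtain ⟨x1, hx1⟩ := hD.2 g1
      have h5 : T.edist υ x1 = (m : ℕ∞) := (hdist υ hυ vM hvu x1 g1 hx1 m (by omega)).2 hg1
      have h6 : T.edist υ x1 ≤ ((2 * N - 1 : ℕ) : ℕ∞) := by
        rw [h5]; exact_mod_cast (by omega : m ≤ 2 * N - 1)
      have a1 := hstep υ hυ x1 g1 g x hx1 h6 ha hx
      have a2 := hstep υ hυ x1 g1 g x' hx1 h6 ha hx'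
      exact hne a1 a2 (by rw [hx.1, hx'.1])
  have hV : ∀ υ ∈ C, ∀ d : ℕ, d ≤ 2 * N → ∀ x g g', T.edist υ x = (d : ℕ∞) →
      DR N e T tl M lm x g → DR N e T tl M lm x g' → g = g' := by
    intro υ hυ
    obtain ⟨vM, hv, hvu⟩ := hcap υ hυ
    intro d
    induction d with
    | zero =>
      intro _ x g g' hx hg hg'
      rw [Nat.cast_zero, SimpleGraph.edist_eq_zero_iff] at hx
      subst hx
      rw [hvu g hg.1.symm, hvu g' hg'.1.symm]
    | succ m ih =>
      intro hm x g g' hx hg hg'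
      have h1 := (hdist υ hυ vM hvu x g hg _ hm).1 hx
      have h1' := (hdist υ hυ vM hvu x g' hg' _ hm).1 hx
      obtain ⟨g1, ha, hg1⟩ := hnear vM g m h1
      obtain ⟨g1', ha', hg1'⟩ := hnear vM g' m h1'
      obtain ⟨x1, hx1⟩ := hD.2 g1
      obtain ⟨x1', hx1'⟩ := hD.2 g1'
      have h5 : T.edist υ x1 = (m : ℕ∞) := (hdist υ hυ vM hvu x1 g1 hx1 m (by omega)).2 hg1
      have h5' : T.edist υ x1' = (m : ℕ∞) := (hdist υ hυ vM hvu x1' g1' hx1' m (by omega)).2 hg1'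
      have h6 : T.edist υ x1 ≤ ((2 * N - 1 : ℕ) : ℕ∞) := by
        rw [h5]; exact_mod_cast (by omega : m ≤ 2 * N - 1)
      have h6' : T.edist υ x1' ≤ ((2 * N - 1 : ℕ) : ℕ∞) := by
        rw [h5']; exact_mod_cast (by omega : m ≤ 2 * N - 1)
      have a1 := hstep υ hυ x1 g1 g x hx1 h6 ha hg
      have a2 := hstep υ hυ x1' g1' g' x hx1' h6' ha' hg'
      have h7 : x1 = x1' := acyc hT hx h5 h5' a1.symm a2.symm
      subst h7
      have h8 : g1 = g1' := ih (by omega) x1 g1 g1' h5 hx1 hx1'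
      subst h8
      exact hneM ha ha' (by rw [← hg.1, ← hg'.1])
  refine ⟨?_, hU, ?_⟩
  · rintro x ⟨υ, hυ, hυx⟩
    obtain ⟨g, hg⟩ := hD.1 x
    obtain ⟨d, hd, hd2⟩ := le_nat hυx
    exact ⟨g, hg, fun g' hg' => hV υ hυ d hd x g' g hd2 hg' hg⟩
  · rintro x g ⟨υ, hυ, hυx⟩ hxg
    have key : ∀ g', M.Adj g g' → ∃ y, T.Adj x y ∧ DR N e T tl M lm y g' := by
      intro g' hg'
      obtain ⟨y, hy⟩ := hD.2 g'
      exact ⟨y, hstep υ hυ x g g' y hxg hυx hg' hy, hy⟩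
    refine ⟨?_, key⟩
    intro y hy
    obtain ⟨g', hg'⟩ := hxg.2.1 y
    have a : M.Adj g g' := by
      rw [adj_iff_one, ← pe_le hg' 1 (by omega), ← adj_iff_one]
      exact hy
    obtain ⟨y', hy', hy2⟩ := key g' a
    have : y' = y := hne hy' hy (by rw [hy2.1, hg'.1])
    subst this
    exact ⟨g', hy2, a⟩

end Pool.Agent.Helper20.LD
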